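import Pool.Agent.Helper1_PRS.Stmts

/-!
# Squad PRS, module SPN: vector fields which span the tangent space
-/

set_option autoImplicit false

universe u

namespace Pool.Agent.PRS.H67

open MvPolynomial Pool.Agent.PRS

variable {V : Type} [Fintype V] [DecidableEq V]

theorem der_eq (D : Derivation ℚ (MvPolynomial V ℚ) (MvPolynomial V ℚ)) (Q : MvPolynomial V ℚ) :
    D Q = ∑ w, D (X w) * pderiv w Q := by
  induction Q using MvPolynomial.induction_on with
  | C a =>
    have h : D (C a) = 0 := D.map_algebraMap a
    rw [h]
    simp
  | add P Q hP hQ =>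
    rw [map_add, hP, hQ, ← Finset.sum_add_distrib]
    apply Finset.sum_congr rfl
    intro w _
    rw [map_add, mul_add]
  | mul_X P v hP =>
    rw [D.leibniz, hP, smul_eq_mul, smul_eq_mul, Finset.mul_sum]
    have h : P * D (X v) = ∑ w, D (X w) * (P * pderiv w (X v)) := by
      rw [Finset.sum_eq_single v]
      · rw [pderiv_X_self]
        ring
      · intro w _ hw
        rw [pderiv_X_of_ne (Ne.symm hw)]
        ring
      · intro h
        exact absurd (Finset.mem_univ v) h
    rw [h, ← Finset.sum_add_distrib]
    apply Finset.sum_congr rfl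
    intro w _
    rw [pderiv_mul]
    ring

variable {E : Type u} [Field E] [CharZero E] (p : V → E)

theorem taylor_X (v : V) : taylor p (X v) = C (p v) + X v := by
  rw [taylor, aeval_X]

theorem taylor_coeff_zero (Q : MvPolynomial V ℚ) : (taylor p Q).coeff 0 = aeval p Q := by
  have h : (constantCoeff : MvPolynomial V E →+* E).comp (taylor p : MvPolynomial V ℚ →+* _) =
      ((aeval p : MvPolynomial V ℚ →ₐ[ℚ] E) : MvPolynomial V ℚ →+* E) := by
    apply MvPolynomial.ringHom_ext
    · intro r
      simp
    · intro v
      simp [taylor_X]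
  have h2 := congrArg (fun f => f Q) h
  exact h2

theorem taylor_pderiv (w : V) (Q : MvPolynomial V ℚ) :
    taylor p (pderiv w Q) = pderiv w (taylor p Q) := by
  induction Q using MvPolynomial.induction_on with
  | C a =>
    rw [pderiv_C, map_zero]
    have h : taylor p (C a : MvPolynomial V ℚ) = C (a : E) := by
      simp [taylor, algebraMap_eq]
    rw [h, pderiv_C]
  | add P Q hP hQ => rw [map_add, map_add, map_add, map_add, hP, hQ]
  | mul_X P v hP =>
    rw [pderiv_mul, map_add, map_mul, map_mul, map_mul, pderiv_mul, hP, taylor_X, pderiv_X,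
      map_add, pderiv_C, pderiv_X, zero_add]
    by_cases hv : v = w
    · subst hv
      simp [taylor_X]
    · simp [Pi.single_apply, hv, Ne.symm hv, taylor_X]

/-- SPN -/
theorem spn : SpnStmt.{u} := by
  intro V K _ _ E _ _ p 𝒱 δ Dm h1 h2 h3 n
  induction n with
  | zero =>
    intro e Q he hQ s hs
    have hs0 : s = 0 := by
      rwa [Nat.le_zero, Finsupp.degree_eq_zero_iff] at hs
    rw [hs0, taylor_coeff_zero]
    exact h2 e Q he hQ
  | succ n ih =>
    intro e Q he hQ s hs
    rcases Nat.lt_or_ge s.degree (n + 1) with hs1 | hs1
    · exact ih e Q (by omega) hQ s (by omega)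
    have hs2 : s.degree = n + 1 := le_antisymm hs hs1
    have hs3 : s ≠ 0 := by
      intro h
      rw [h, map_zero] at hs2
      omega
    obtain ⟨v, hv⟩ := Finsupp.ne_iff.1 hs3
    rw [Finsupp.zero_apply] at hv
    obtain ⟨t, ht⟩ : ∃ t : V →₀ ℕ, t + Finsupp.single v 1 = s :=
      ⟨s - Finsupp.single v 1, tsub_add_cancel_of_le (by
        rw [Finsupp.single_le_iff]
        omega)⟩
    have htd : t.degree = n := by
      have := congrArg Finsupp.degree ht
      rw [map_add, Finsupp.degree_single, hs2] at this
      omega
    -- the coefficient of the derivative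
    have hlow : ∀ (w : V) (b : V →₀ ℕ), b.degree < n → (pderiv w (taylor p Q)).coeff b = 0 := by
      intro w b hb
      rw [coeff_pderiv, ih e Q (by omega) hQ (b + Finsupp.single w 1) (by
        rw [map_add, Finsupp.degree_single]
        omega)]
      simp
    have hk : ∀ k, ∑ w, aeval p (δ k (X w)) * (pderiv w (taylor p Q)).coeff t = 0 := by
      intro k
      have h4 := ih (e + 3) (δ k Q) (by omega) (h1 k e Q hQ) t htd.le
      rw [der_eq, map_sum, coeff_sum] at h4
      rw [← h4]
      apply Finset.sum_congr rfl
      intro w _
      rw [map_mul, taylor_pderiv, coeff_mul, Finset.sum_eq_single (0, t)]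
      · rw [taylor_coeff_zero]
      · intro ab hab hne
        rw [Finset.HasAntidiagonal.mem_antidiagonal] at hab
        have h5 : ab.2.degree < n := by
          have h6 := congrArg Finsupp.degree hab
          rw [map_add, htd] at h6
          rcases Nat.eq_zero_or_pos ab.1.degree with h7 | h7
          · exfalso
            apply hne
            rw [Finsupp.degree_eq_zero_iff] at h7
            rw [h7, zero_add] at hab
            exact Prod.ext h7 hab
          · omega
        rw [hlow w ab.2 h5, mul_zero]
      · intro h5
        exact absurd (Finset.HasAntidiagonal.mem_antidiagonal.2 (zero_add t)) h5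
    obtain ⟨l, hl⟩ := h3 v
    have h6 : (pderiv v (taylor p Q)).coeff t = 0 := by
      have h7 : ∑ w, l.sum (fun k c => c * aeval p (δ k (X w))) *
          (pderiv w (taylor p Q)).coeff t = 0 := by
        have h8 : ∀ w, l.sum (fun k c => c * aeval p (δ k (X w))) *
            (pderiv w (taylor p Q)).coeff t =
            ∑ k ∈ l.support, l k * (aeval p (δ k (X w)) * (pderiv w (taylor p Q)).coeff t) := by
          intro w
          rw [Finsupp.sum, Finset.sum_mul]
          apply Finset.sum_congr rfl
          intro k _
          ring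
        rw [Finset.sum_congr rfl (fun w _ => h8 w), Finset.sum_comm]
        apply Finset.sum_eq_zero
        intro k _
        rw [← Finset.mul_sum, hk k, mul_zero]
      rw [Finset.sum_congr rfl (fun w _ => by rw [hl w])] at h7
      simpa using h7
    rw [coeff_pderiv, ht] at h6
    rcases mul_eq_zero.1 h6 with h7 | h7
    · exact h7
    · exfalso
      have h8 : ((t v + 1 : ℕ) : E) ≠ 0 := Nat.cast_ne_zero.2 (Nat.succ_ne_zero _)
      apply h8
      push_cast
      exact h7

end Pool.Agent.PRS.H67
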